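import Pool.Agent.Q57.QT.Stm

set_option autoImplicit false

/-! # Project QT of helper57: steps Z3 and Z4 (powers of ideals, `Z(T ^ a)`) -/

namespace Pool.Agent.Q299.QT

open MvPolynomial Pool.Agent.Q57.QT Pool.Agent.W428.MOT Pool.Agent.TH192.MT Pool.Agent.TH192.DT
  Pool.Agent.Q49.CO
open Pool.Agent.Q57.MD (geoU_spec)

theorem dil_eq {R : Type} [CommRing R] (a : ℕ) (ha : a ≠ 0) (Z : PowerSeries R) :
    dil a Z = PowerSeries.expand a ha Z := by
  ext N
  rw [dil, PowerSeries.coeff_mk]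
  split_ifs with h
  · obtain ⟨m, rfl⟩ := h
    rw [PowerSeries.coeff_expand_mul, Nat.mul_div_cancel_left _ (Nat.pos_of_ne_zero ha)]
  · rw [PowerSeries.coeff_expand_of_not_dvd _ _ _ h]

theorem X_dvd_pow {F : Type} [Field F] (a N m : ℕ) (g : PowerSeries F)
    (hm : ∀ k, N ≤ a * k → m ≤ k) (h : PowerSeries.X ^ N ∣ g ^ a) : PowerSeries.X ^ m ∣ g := by
  by_cases hg : g = 0
  · rw [hg]; exact dvd_zero _
  have hX := (PowerSeries.X_prime (R := F))
  obtain ⟨u, h1, h2⟩ := (FiniteMultiplicity.of_prime_left hX hg).exists_eq_pow_mul_and_not_dvd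
  set k := multiplicity PowerSeries.X g
  have h3 : N ≤ a * k := by
    by_contra hlt
    push Not at hlt
    apply h2
    obtain ⟨l, hl⟩ : ∃ l, N = a * k + (l + 1) := ⟨N - a * k - 1, by omega⟩
    rw [h1, mul_pow, ← pow_mul, mul_comm k a, hl, pow_add] at h
    have h4 := (mul_dvd_mul_iff_left (pow_ne_zero (a * k) PowerSeries.X_ne_zero)).1 h
    exact hX.dvd_of_dvd_pow (dvd_trans (dvd_pow_self _ (Nat.succ_ne_zero l)) h4)
  rw [h1]
  exact Dvd.dvd.mul_right (pow_dvd_pow _ (hm k h3)) _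

theorem cdiv_iff (a N k : ℕ) (ha : 1 ≤ a) : N ≤ a * k ↔ (N + a - 1) / a ≤ k := by
  have h1 : (N + a - 1) / a ≤ k ↔ (N + a - 1) / a < k + 1 := Nat.lt_succ_iff.symm
  rw [h1, Nat.div_lt_iff_lt_mul ha, add_mul, mul_comm k a]
  omega

theorem cdiv_mul (a m : ℕ) (ha : 1 ≤ a) : (a * m + a - 1) / a = m := by
  apply le_antisymm
  · exact (cdiv_iff a (a * m) m ha).1 le_rfl
  · have h1 := (cdiv_iff a (a * m) ((a * m + a - 1) / a) ha).2 le_rfl
    exact Nat.le_of_mul_le_mul_left h1 ha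

theorem cdiv_succ (a m : ℕ) (ha : 1 ≤ a) : (a * m + 1 + a - 1) / a = m + 1 := by
  apply le_antisymm
  · exact (cdiv_iff a (a * m + 1) (m + 1) ha).1 (by rw [mul_add]; omega)
  · have h1 := (cdiv_iff a (a * m + 1) ((a * m + 1 + a - 1) / a) ha).2 le_rfl
    have h2 : a * m < a * ((a * m + 1 + a - 1) / a) := by omega
    have := Nat.lt_of_mul_lt_mul_left h2
    omega

theorem cdiv_not (a N : ℕ) (ha : 1 ≤ a) (h : ¬ a ∣ N) :
    (N + a - 1) / a = (N + 1 + a - 1) / a := by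
  apply le_antisymm
  · exact Nat.div_le_div_right (by omega)
  · rw [← cdiv_iff _ _ _ ha]
    have h1 := (cdiv_iff a N ((N + a - 1) / a) ha).2 le_rfl
    have h2 : N ≠ a * ((N + a - 1) / a) := fun h3 => h ⟨_, h3⟩
    omega

theorem cdiv_le (a N : ℕ) (ha : 1 ≤ a) : (N + a - 1) / a ≤ N := by
  rw [← cdiv_iff _ _ _ ha]
  nlinarith

theorem GW_pw {σ J : Type} (f : J → MvPolynomial σ ℂ) (W : Set (Pt ℂ σ)) (a : ℕ) (ha : 1 ≤ a)
    (N m : ℕ) : GW (pw a f) W N m = GW f W ((N + a - 1) / a) m := by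
  ext z
  rw [mem_GW, mem_GW]
  refine and_congr Iff.rfl ⟨fun h j => ?_, fun h j => ?_⟩
  · have h1 := h fun _ => j
    rw [vn_iff] at h1 ⊢
    rw [pw, map_prod, Finset.prod_const, Finset.card_univ, Fintype.card_fin] at h1
    exact X_dvd_pow a N _ _ (fun k hk => (cdiv_iff a N k ha).1 hk) h1
  · rw [vn_iff, pw, map_prod]
    have h1 : (PowerSeries.X : PowerSeries (AlgebraicClosure ℂ)) ^ N ∣
        ∏ _i : Fin a, PowerSeries.X ^ ((N + a - 1) / a) := by
      rw [Finset.prod_const, Finset.card_univ, Fintype.card_fin, ← pow_mul]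
      refine pow_dvd_pow _ ?_
      rw [mul_comm]
      exact (cdiv_iff a N _ ha).2 le_rfl
    refine h1.trans (Finset.prod_dvd_prod_of_dvd _ _ fun i _ => ?_)
    exact vn_iff.1 (h (j i))

theorem vol_pw {R : Type} [CommRing R] (M : Meas ℂ R) {v : R} (hv : M.L * v = 1) {σ J : Type}
    [Fintype σ] [Finite J] (f : J → MvPolynomial σ ℂ) {W : Set (Pt ℂ σ)} (hW : Constr W) (a : ℕ)
    (ha : 1 ≤ a) (N : ℕ) : vol M v (pw a f) W N = vol M v f W ((N + a - 1) / a) := by
  have h1 := cdiv_le a N ha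
  rw [← vol_eq M hv f hW ((N + a - 1) / a) N (by omega)]
  rw [vol, GW_pw f W a ha]

theorem qt_powz : StPowZ := by
  intro R _ M v hv σ J _ _ f W hW a ha
  ext N
  rw [dil, PowerSeries.coeff_mk, ZW, PowerSeries.coeff_mk, vol_pw M hv f hW a ha N,
    vol_pw M hv f hW a ha (N + 1)]
  split_ifs with h
  · obtain ⟨m, rfl⟩ := h
    rw [ZW, PowerSeries.coeff_mk, cdiv_mul a m ha, cdiv_succ a m ha,
      Nat.mul_div_cancel_left _ ha]
  · rw [← cdiv_not a N ha h, sub_self]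

theorem dil_geo {R : Type} [CommRing R] (u : Rˣ) (s N : ℤ) (hN : 0 < N) (a : ℕ) (ha : 1 ≤ a) :
    dil a (geoU u s N) = geoU u s ((a : ℤ) * N) := by
  have ha0 : a ≠ 0 := by omega
  have hpos : 0 < (a : ℤ) * N := by positivity
  have h1 := congrArg (PowerSeries.expand a ha0) (geoU_spec u s N hN)
  rw [map_mul, map_sub, map_one, map_mul, PowerSeries.expand_C, map_pow, PowerSeries.expand_X,
    ← pow_mul] at h1
  have h2 := geoU_spec u s ((a : ℤ) * N) hpos
  have h3 : ((a : ℤ) * N).toNat = a * N.toNat := by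
    rw [Int.toNat_mul (by positivity) hN.le, Int.toNat_natCast]
  rw [h3] at h2
  rw [dil_eq a ha0]
  set A := (1 - PowerSeries.C ((u ^ s : Rˣ) : R) * PowerSeries.X ^ (a * N.toNat) : PowerSeries R)
  calc PowerSeries.expand a ha0 (geoU u s N)
      = PowerSeries.expand a ha0 (geoU u s N) * (A * geoU u s ((a : ℤ) * N)) := by rw [h2, mul_one]
    _ = (A * PowerSeries.expand a ha0 (geoU u s N)) * geoU u s ((a : ℤ) * N) := by ring
    _ = _ := by rw [h1, one_mul]

theorem qt_dil : StDil := by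
  intro R _ u S hS Z hZ a ha
  have ha0 : a ≠ 0 := by omega
  induction hZ using Algebra.adjoin_induction with
  | mem Z h =>
    rcases h with h | ⟨⟨s, N⟩, hp, rfl⟩
    · rw [Set.mem_singleton_iff.1 h, dil_eq a ha0, PowerSeries.expand_X]
      exact Subalgebra.pow_mem _ (rat_X u) _
    · rw [dil_geo u s N (hS _ (Finset.mem_coe.1 hp)) a ha]
      refine Algebra.subset_adjoin (Or.inr ⟨(s, (a : ℤ) * N), ?_, rfl⟩)
      exact Finset.mem_coe.2 (Finset.mem_image.2 ⟨_, Finset.mem_coe.1 hp, rfl⟩)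
  | algebraMap r =>
    rw [dil_eq a ha0]
    have h1 : (algebraMap R (PowerSeries R)) r = PowerSeries.C r := rfl
    rw [h1, PowerSeries.expand_C]
    exact rat_C u _
  | add Z Z' _ _ h h' =>
    rw [dil_eq a ha0] at h h' ⊢
    rw [map_add]
    exact Subalgebra.add_mem _ h h'
  | mul Z Z' _ _ h h' =>
    rw [dil_eq a ha0] at h h' ⊢
    rw [map_mul]
    exact Subalgebra.mul_mem _ h h'

end Pool.Agent.Q299.QT
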