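import Pool.Agent.Q57.QT.Stm

set_option autoImplicit false

/-! # Project QT of helper57: steps F and G (algebraically independent products, spans) -/

namespace Pool.Agent.Q299.QT

open MvPolynomial Pool.Agent.Q57.QT

theorem span_prod {Q K A : Type} [CommRing A] [Fintype Q] (x : Q → K → A) :
    Ideal.span (Set.range fun j : Q → K => ∏ q, x q (j q)) = ∏ q, Ideal.span (Set.range (x q)) := by
  rw [Ideal.prod_span]
  congr 1
  ext y
  rw [Set.mem_fintype_prod]
  constructor
  · rintro ⟨j, rfl⟩
    exact ⟨fun q => x q (j q), fun q => ⟨j q, rfl⟩, rfl⟩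
  · rintro ⟨g, hg, rfl⟩
    choose j hj using hg
    exact ⟨j, Finset.prod_congr rfl fun q _ => hj q⟩

theorem qt_span : StSpan := by
  intro σ A _ φ T r a f
  have h1 := span_prod (fun (q : Σ t : Fin T, Fin (a t)) (j : Fin r) => φ (f q.1 j))
  have h2 : (fun j => φ (powF a f j)) = fun j : (Σ t : Fin T, Fin (a t)) → Fin r =>
      ∏ q, φ (f q.1 (j q)) := by
    funext j
    rw [powF, map_prod]
  rw [h2, h1, Fintype.prod_sigma]
  refine Finset.prod_congr rfl fun t _ => ?_
  simp

theorem qt_jac : StJac := by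
  classical
  intro n T r S d f hS hd hw ⟨e, he⟩ a ha
  obtain ⟨u0', hu0⟩ := hS
  obtain ⟨t0, ht0⟩ := hd
  set u0 : S := ⟨u0', hu0⟩ with hu0d
  set h : S → MvPolynomial (Fin n) ℂ := fun u => ∏ t, f t (e u t) with hh
  set G : MvPolynomial (Fin n) ℂ := ∏ t, f t (e u0 t) ^ (a t - 1) with hG
  set D : ℕ := ∑ t, d t with hD
  set δ : ℕ := ∑ t, (a t - 1) • d t with hδ
  have hDpos : 0 < D := lt_of_lt_of_le ht0 (Finset.single_le_sum (f := d) (fun _ _ => Nat.zero_le _) (Finset.mem_univ t0))
  -- all factors of h u0 are nonzero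
  have hh0 : h u0 ≠ 0 := by
    intro h0
    apply he
    apply Matrix.det_eq_zero_of_column_eq_zero u0
    intro s
    show pderiv (s : Fin n) (h u0) = 0
    rw [h0, map_zero]
  have hf0 : ∀ t, f t (e u0 t) ≠ 0 := fun t => by
    intro h0
    exact hh0 (Finset.prod_eq_zero (Finset.mem_univ t) h0)
  have hG0 : G ≠ 0 := Finset.prod_ne_zero_iff.2 fun t _ => pow_ne_zero _ (hf0 t)
  -- Euler
  have euler : ∀ (g : MvPolynomial (Fin n) ℂ) (m : ℕ),
      g.IsWeightedHomogeneous (fun i => if i ∈ S then 1 else 0) m →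
      ∑ i : S, X (i : Fin n) * pderiv (i : Fin n) g = (m : MvPolynomial (Fin n) ℂ) * g := by
    intro g m hg
    have h1 := hg.sum_weight_X_mul_pderiv
    rw [nsmul_eq_mul] at h1
    rw [← h1, Finset.sum_coe_sort S (fun i => X i * pderiv i g)]
    simp [ite_smul, Finset.sum_ite_mem]
  have eh : ∀ u, ∑ i : S, X (i : Fin n) * pderiv (i : Fin n) (h u) = (D : MvPolynomial (Fin n) ℂ) * h u := by
    intro u
    apply euler
    exact IsWeightedHomogeneous.prod _ _ _ fun t _ => hw t _
  have eG : ∑ i : S, X (i : Fin n) * pderiv (i : Fin n) G = (δ : MvPolynomial (Fin n) ℂ) * G := by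
    apply euler
    exact IsWeightedHomogeneous.prod _ _ _ fun t _ => (hw t _).pow _
  refine ⟨fun u q => if (q.2 : ℕ) = 0 then e u q.1 else e u0 q.1, ?_⟩
  have hpow : ∀ u : S, powF a f (fun q => if (q.2 : ℕ) = 0 then e u q.1 else e u0 q.1) = G * h u := by
    intro u
    rw [powF, Fintype.prod_sigma, hG, hh]
    simp only
    rw [← Finset.prod_mul_distrib]
    refine Finset.prod_congr rfl fun t _ => ?_
    obtain ⟨b, hb⟩ : ∃ b, a t = b + 1 := ⟨a t - 1, by have := ha t; omega⟩
    have : ∀ (c : ℕ) (hc : c = b + 1), ∏ x : Fin c, f t (if (x : ℕ) = 0 then e u t else e u0 t) =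
        f t (e u0 t) ^ (c - 1) * f t (e u t) := by
      intro c hc
      subst hc
      rw [Fin.prod_univ_succ]
      simp
      ring
    exact this _ hb
  intro hdet
  obtain ⟨v, hv0, hv⟩ := Matrix.exists_vecMul_eq_zero_iff.2 hdet
  have hv' : ∀ u : S, ∑ s : S, v s * (G * pderiv (s : Fin n) (h u) + h u * pderiv (s : Fin n) G) = 0 := by
    intro u
    have := congrFun hv u
    simp only [Matrix.vecMul, dotProduct, Matrix.of_apply, Pi.zero_apply] at this
    rw [← this]
    refine Finset.sum_congr rfl fun s _ => ?_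
    rw [hpow u, Derivation.leibniz, smul_eq_mul, smul_eq_mul]
  set c : MvPolynomial (Fin n) ℂ := ∑ s : S, v s * pderiv (s : Fin n) G with hc
  have key : (fun i : S => (D : MvPolynomial (Fin n) ℂ) * G * v i + c * X (i : Fin n)) = 0 := by
    apply Matrix.eq_zero_of_vecMul_eq_zero he
    funext u
    simp only [Matrix.vecMul, dotProduct, Matrix.of_apply, Pi.zero_apply]
    have h1 := hv' u
    have h2 := eh u
    have h3 : ∑ s : S, v s * (G * pderiv (s : Fin n) (h u) + h u * pderiv (s : Fin n) G) =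
        G * ∑ s : S, v s * pderiv (s : Fin n) (h u) + h u * c := by
      rw [hc, Finset.mul_sum, Finset.mul_sum, ← Finset.sum_add_distrib]
      exact Finset.sum_congr rfl fun s _ => by ring
    have h4 : ∑ s : S, ((D : MvPolynomial (Fin n) ℂ) * G * v s + c * X (s : Fin n)) * pderiv (s : Fin n) (∏ t, f t (e u t)) =
        (D : MvPolynomial (Fin n) ℂ) * (G * ∑ s : S, v s * pderiv (s : Fin n) (h u)) + c * ∑ s : S, X (s : Fin n) * pderiv (s : Fin n) (h u) := by
      rw [Finset.mul_sum, Finset.mul_sum, Finset.mul_sum, ← Finset.sum_add_distrib]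
      exact Finset.sum_congr rfl fun s _ => by simp only [hh]; ring
    rw [h4, h2]
    rw [h3] at h1
    linear_combination (D : MvPolynomial (Fin n) ℂ) * h1
  have key' : ∀ i : S, (D : MvPolynomial (Fin n) ℂ) * G * v i + c * X (i : Fin n) = 0 := fun i => congrFun key i
  have hc0 : c = 0 := by
    have h1 : ∑ i : S, ((D : MvPolynomial (Fin n) ℂ) * G * v i + c * X (i : Fin n)) * pderiv (i : Fin n) G = 0 :=
      Finset.sum_eq_zero fun i _ => by rw [key' i, zero_mul]
    have h2 : ∑ i : S, ((D : MvPolynomial (Fin n) ℂ) * G * v i + c * X (i : Fin n)) * pderiv (i : Fin n) G =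
        (D : MvPolynomial (Fin n) ℂ) * G * c + c * ∑ i : S, X (i : Fin n) * pderiv (i : Fin n) G := by
      conv_rhs => rw [hc]
      rw [Finset.mul_sum, Finset.mul_sum, ← Finset.sum_add_distrib]
      exact Finset.sum_congr rfl fun s _ => by rw [← hc]; ring
    rw [h2, eG] at h1
    have h3 : ((D + δ : ℕ) : MvPolynomial (Fin n) ℂ) * G * c = 0 := by
      push_cast
      linear_combination h1
    rcases mul_eq_zero.1 h3 with h4 | h4
    · rcases mul_eq_zero.1 h4 with h5 | h5
      · exfalso
        have : D + δ = 0 := by exact_mod_cast h5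
        omega
      · exact absurd h5 hG0
    · exact h4
  apply hv0
  funext i
  have h1 := key' i
  rw [hc0, zero_mul, add_zero] at h1
  rcases mul_eq_zero.1 h1 with h4 | h4
  · exfalso
    rcases mul_eq_zero.1 h4 with h5 | h5
    · have : D = 0 := by exact_mod_cast h5
      omega
    · exact hG0 h5
  · exact h4

end Pool.Agent.Q299.QT
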