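import Pool.Agent.Q57.QT.Stm

set_option autoImplicit false

/-! # Project QT of helper57: step Z1 (one factor) -/

namespace Pool.Agent.Q299.QT

open MvPolynomial Pool.Agent.Q57.QT Pool.Agent.W428.MOT Pool.Agent.TH192.MT Pool.Agent.TH192.DT
  Pool.Agent.Q49.CO Pool.Agent.Q57.QM

section ser

variable {F : Type} [Field F] {J J' : Type}

/-- the minimal order of the series is `k` -/
def OE (k : ℕ) (G : J → PowerSeries F) : Prop :=
  (∀ j, Vn k (G j)) ∧ ∃ j, PowerSeries.coeff k (G j) ≠ 0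

theorem oe_iff (k : ℕ) (G : J → PowerSeries F) :
    OE k G ↔ (∀ j, Vn k (G j)) ∧ ¬ ∀ j, Vn (k + 1) (G j) := by
  refine and_congr_right fun h => ?_
  constructor
  · rintro ⟨j, hj⟩ h'
    exact hj (h' j k (Nat.lt_succ_self k))
  · intro h'
    by_contra hc
    push Not at hc
    apply h'
    intro j i hi
    rcases Nat.lt_succ_iff_lt_or_eq.1 hi with h1 | rfl
    · exact h j i h1
    · exact hc j

theorem oe_vn {k m : ℕ} {G : J → PowerSeries F} (h : OE k G) (h' : ∀ j, Vn m (G j)) : m ≤ k := by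
  by_contra hlt
  push Not at hlt
  obtain ⟨j, hj⟩ := h.2
  exact hj (h' j k hlt)

theorem oe_uniq {k m : ℕ} {G : J → PowerSeries F} (h : OE k G) (h' : OE m G) : k = m :=
  le_antisymm (oe_vn h' h.1) (oe_vn h h'.1)

theorem oe_ex {G : J → PowerSeries F} (h : ∃ j, G j ≠ 0) : ∃ k, OE k G := by
  classical
  obtain ⟨j0, hj0⟩ := h
  have hex : ∃ k, ∃ j, PowerSeries.coeff k (G j) ≠ 0 := by
    by_contra hc
    push Not at hc
    apply hj0
    ext k
    rw [hc k j0, map_zero]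
  refine ⟨Nat.find hex, fun j i hi => ?_, Nat.find_spec hex⟩
  have := Nat.find_min hex hi
  push Not at this
  exact this j

theorem coeff_Xpow (n : ℕ) (d : PowerSeries F) :
    PowerSeries.coeff n (PowerSeries.X ^ n * d) = PowerSeries.coeff 0 d := by
  have := PowerSeries.coeff_X_pow_mul d n 0
  rwa [Nat.zero_add] at this

theorem oe_mul {k l : ℕ} {G : J → PowerSeries F} {G' : J' → PowerSeries F} (h : OE k G)
    (h' : OE l G') : OE (k + l) fun x : J × J' => G x.1 * G' x.2 := by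
  obtain ⟨h1, j, hj⟩ := h
  obtain ⟨h2, i, hi⟩ := h'
  refine ⟨fun x => ?_, (j, i), ?_⟩
  · rw [vn_iff, pow_add]
    exact mul_dvd_mul (vn_iff.1 (h1 _)) (vn_iff.1 (h2 _))
  · obtain ⟨c, hc⟩ := vn_iff.1 (h1 j)
    obtain ⟨d, hd⟩ := vn_iff.1 (h2 i)
    rw [hc, coeff_Xpow] at hj
    rw [hd, coeff_Xpow] at hi
    simp only
    rw [hc, hd, show PowerSeries.X ^ k * c * (PowerSeries.X ^ l * d) =
      PowerSeries.X ^ (k + l) * (c * d) by ring, coeff_Xpow,
      PowerSeries.coeff_zero_eq_constantCoeff_apply, map_mul]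
    rw [PowerSeries.coeff_zero_eq_constantCoeff_apply] at hj hi
    exact mul_ne_zero hj hi

theorem oe_pow {k : ℕ} {G : J → PowerSeries F} (h : OE k G) (a : ℕ) :
    OE (a * k) fun κ : Fin a → J => ∏ i, G (κ i) := by
  obtain ⟨h1, j, hj⟩ := h
  refine ⟨fun κ => ?_, fun _ => j, ?_⟩
  · rw [vn_iff]
    have h2 : (PowerSeries.X : PowerSeries F) ^ (a * k) ∣ ∏ _i : Fin a, PowerSeries.X ^ k := by
      rw [Finset.prod_const, Finset.card_univ, Fintype.card_fin, ← pow_mul, mul_comm]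
    exact h2.trans (Finset.prod_dvd_prod_of_dvd _ _ fun i _ => vn_iff.1 (h1 (κ i)))
  · obtain ⟨c, hc⟩ := vn_iff.1 (h1 j)
    rw [hc, coeff_Xpow, PowerSeries.coeff_zero_eq_constantCoeff_apply] at hj
    change PowerSeries.coeff (a * k) (∏ _i : Fin a, G j) ≠ 0
    rw [Finset.prod_const, Finset.card_univ, Fintype.card_fin, hc, mul_pow, ← pow_mul, mul_comm k a,
      coeff_Xpow, PowerSeries.coeff_zero_eq_constantCoeff_apply, map_pow]
    exact pow_ne_zero _ hj

theorem oe_not_zero {k : ℕ} {G : J → PowerSeries F} (h : OE k G) : ∃ j, G j ≠ 0 := by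
  obtain ⟨j, hj⟩ := h.2
  refine ⟨j, fun h0 => hj ?_⟩
  rw [h0, map_zero]

/-- the left hand side -/
theorem oe_left {K : Type} {a N : ℕ} (ha : 1 ≤ a) (y f : J → PowerSeries F) [Fintype J]
    (g : K → PowerSeries F) : OE N (fun k => (∑ j, y j * f j) ^ a * g k) ↔
      ∃ x ∈ ((Finset.range (N + 1) ×ˢ Finset.range (N + 1)).filter
        fun x : ℕ × ℕ => a * (x.1 + x.2) ≤ N), OE x.1 f ∧ OE (N - a * (x.1 + x.2)) g ∧
          OE (x.1 + x.2) fun _ : Unit => ∑ j, y j * f j := by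
  set H := ∑ j, y j * f j with hH
  have key : ∀ h l, OE h (fun _ : Unit => H) → OE l g → OE (a * h + l) fun k => H ^ a * g k := by
    intro h l h1 h2
    have h3 := oe_mul (oe_pow h1 a) h2
    refine ⟨fun k => ?_, ?_⟩
    · have h4 := h3.1 (fun _ => (), k)
      simp only [Finset.prod_const, Finset.card_univ, Fintype.card_fin] at h4
      exact h4
    · obtain ⟨⟨κ, k⟩, h4⟩ := h3.2
      simp only [Finset.prod_const, Finset.card_univ, Fintype.card_fin] at h4
      exact ⟨k, h4⟩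
  constructor
  · intro h
    obtain ⟨k0, hk0⟩ := oe_not_zero h
    have hH0 : H ≠ 0 := by
      intro h0
      apply hk0
      rw [h0, zero_pow (by omega), zero_mul]
    have hg0 : g k0 ≠ 0 := by
      intro h0
      apply hk0
      rw [h0, mul_zero]
    obtain ⟨p, hp⟩ := oe_ex (G := fun _ : Unit => H) ⟨(), hH0⟩
    obtain ⟨l, hl⟩ := oe_ex (G := g) ⟨k0, hg0⟩
    have hf0 : ∃ j, f j ≠ 0 := by
      by_contra hc
      push Not at hc
      apply hH0
      rw [hH]
      exact Finset.sum_eq_zero fun j _ => by rw [hc j, mul_zero]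
    obtain ⟨k, hk⟩ := oe_ex hf0
    have h1 := oe_uniq h (key p l hp hl)
    have hVH : Vn k H := by
      rw [vn_iff, hH]
      exact Finset.dvd_sum fun j _ => Dvd.dvd.mul_left (vn_iff.1 (hk.1 j)) _
    have h2 : k ≤ p := oe_vn hp fun _ => hVH
    obtain ⟨m, rfl⟩ := Nat.exists_eq_add_of_le h2
    have h3 : k + m ≤ a * (k + m) := Nat.le_mul_of_pos_left _ ha
    refine ⟨(k, m), ?_, hk, ?_, hp⟩
    · simp only [Finset.mem_filter, Finset.mem_product, Finset.mem_range]
      omega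
    · simp only
      rw [h1, Nat.add_sub_cancel_left]
      exact hl
  · rintro ⟨⟨k, m⟩, hx, h1, h2, h3⟩
    simp only [Finset.mem_filter, Finset.mem_product, Finset.mem_range] at hx h1 h2 h3
    have h4 := key _ _ h3 h2
    rwa [show a * (k + m) + (N - a * (k + m)) = N by omega] at h4

/-- the right hand side -/
theorem oe_right {K : Type} {a N B : ℕ} (ha : 1 ≤ a) (hB : N ≤ B) (f : J → PowerSeries F)
    (g : K → PowerSeries F) :
    OE N (fun q : (Fin a → J) × K => (∏ i, f (q.1 i)) * g q.2) ↔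
      ∃ x ∈ ((Finset.range (B + 1)).filter fun x : ℕ => a * x ≤ N),
        OE x f ∧ OE (N - a * x) g := by
  constructor
  · intro h
    obtain ⟨⟨κ, k0⟩, hk0⟩ := oe_not_zero h
    have hg0 : g k0 ≠ 0 := by
      intro h0
      apply hk0
      simp only
      rw [h0, mul_zero]
    have hf0 : ∃ j, f j ≠ 0 := by
      refine ⟨κ ⟨0, ha⟩, fun h0 => hk0 ?_⟩
      simp only
      rw [Finset.prod_eq_zero (Finset.mem_univ (⟨0, ha⟩ : Fin a)) h0, zero_mul]
    obtain ⟨l, hl⟩ := oe_ex (G := g) ⟨k0, hg0⟩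
    obtain ⟨k, hk⟩ := oe_ex hf0
    have h1 := oe_uniq h (oe_mul (oe_pow hk a) hl)
    have h3 : k ≤ a * k := Nat.le_mul_of_pos_left _ ha
    refine ⟨k, ?_, hk, ?_⟩
    · simp only [Finset.mem_filter, Finset.mem_range]
      omega
    · rw [h1, Nat.add_sub_cancel_left]
      exact hl
  · rintro ⟨k, hx, h1, h2⟩
    simp only [Finset.mem_filter, Finset.mem_range] at hx
    have h4 := oe_mul (oe_pow h1 a) h2
    rwa [show a * k + (N - a * k) = N by omega] at h4

end ser

section coef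

variable {R : Type} [CommRing R]

/-- the weights -/
def pS (v : R) (s m : ℕ) : R := if m < s then 0 else (1 - v) * v ^ (m - s)

theorem coeff_gA (v : R) (a s : ℕ) (ha : 1 ≤ a) (N : ℕ) :
    PowerSeries.coeff N (PowerSeries.C (1 - v) * (PowerSeries.X ^ (a * s) * gA v a)) =
      if a ∣ N then pS v s (N / a) else 0 := by
  rw [PowerSeries.coeff_C_mul, PowerSeries.coeff_X_pow_mul']
  split_ifs with h1 h2 h2
  · obtain ⟨m, rfl⟩ := h2
    have h3 : s ≤ m := Nat.le_of_mul_le_mul_left h1 ha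
    rw [gA, PowerSeries.coeff_mk, Nat.mul_div_cancel_left _ ha, ← Nat.mul_sub,
      if_pos (Dvd.intro _ rfl), Nat.mul_div_cancel_left _ ha, pS, if_neg (by omega)]
  · rw [gA, PowerSeries.coeff_mk, if_neg, mul_zero]
    intro h3
    apply h2
    have := (Nat.dvd_add_right (Dvd.intro s rfl : a ∣ a * s)).2 h3
    rwa [Nat.add_sub_cancel' h1] at this
  · obtain ⟨m, rfl⟩ := h2
    rw [Nat.mul_div_cancel_left _ ha, pS, if_pos, mul_zero]
    by_contra hc
    push Not at hc
    exact h1 (Nat.mul_le_mul_left _ hc)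
  · rw [mul_zero]

theorem coeff_conv (a : ℕ) (ha : 1 ≤ a) (p : ℕ → R) (P Z : PowerSeries R)
    (hP : ∀ N, PowerSeries.coeff N P = if a ∣ N then p (N / a) else 0) (N : ℕ) :
    PowerSeries.coeff N (P * Z) = ∑ m ∈ (Finset.range (N + 1)).filter fun m => a * m ≤ N,
      p m * PowerSeries.coeff (N - a * m) Z := by
  classical
  rw [PowerSeries.coeff_mul]
  have h1 : ∑ x ∈ Finset.HasAntidiagonal.antidiagonal N, PowerSeries.coeff x.1 P * PowerSeries.coeff x.2 Z =
      ∑ x ∈ (Finset.HasAntidiagonal.antidiagonal N).filter (fun x : ℕ × ℕ => a ∣ x.1),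
        p (x.1 / a) * PowerSeries.coeff x.2 Z := by
    rw [Finset.sum_filter]
    refine Finset.sum_congr rfl fun x _ => ?_
    rw [hP]
    split_ifs
    · rfl
    · rw [zero_mul]
  rw [h1]
  refine Finset.sum_bij' (fun x _ => x.1 / a) (fun m _ => (a * m, N - a * m)) ?_ ?_ ?_ ?_ ?_
  · intro x hx
    simp only [Finset.mem_filter, Finset.mem_range, Finset.HasAntidiagonal.mem_antidiagonal] at hx ⊢
    obtain ⟨hx1, k, hk⟩ := hx
    rw [hk, Nat.mul_div_cancel_left _ ha]
    have : k ≤ a * k := Nat.le_mul_of_pos_left _ ha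
    omega
  · intro m hm
    simp only [Finset.mem_filter, Finset.mem_range, Finset.HasAntidiagonal.mem_antidiagonal] at hm ⊢
    exact ⟨by omega, Dvd.intro _ rfl⟩
  · intro x hx
    simp only [Finset.mem_filter, Finset.HasAntidiagonal.mem_antidiagonal] at hx
    obtain ⟨hx1, hk⟩ := hx
    have h2 := Nat.mul_div_cancel' hk
    refine Prod.ext h2 ?_
    simp only
    omega
  · intro m hm
    exact Nat.mul_div_cancel_left _ ha
  · intro x hx
    simp only [Finset.mem_filter, Finset.HasAntidiagonal.mem_antidiagonal] at hx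
    obtain ⟨hx1, hk⟩ := hx
    have h2 := Nat.mul_div_cancel' hk
    rw [h2]
    congr 3
    omega

end coef
section key

variable {K : Type} [Field K] {σ J : Type}

theorem aeval_off (f : MvPolynomial σ K) (e : J → σ) (hf : ∀ i, e i ∉ f.vars) (γ δ : Arc K σ)
    (h : ∀ i ∉ Set.range e, γ i = δ i) : aeval γ f = aeval δ f :=
  MvPolynomial.eval₂Hom_congr' rfl (fun i hi _ => h i (by rintro ⟨j, rfl⟩; exact hf j hi)) rfl

variable {R : Type} [CommRing R] (M : Meas K R) {v : R} (hv : M.L * v = 1) [Fintype σ] [Fintype J]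
include hv

theorem chi_key (e : J → σ) (he : Function.Injective e) (f : J → MvPolynomial σ K)
    (hf : ∀ i j, e i ∉ (f j).vars) {Q : Arc K σ → Prop} {q : ℕ} (hQ : Cyl Q q)
    (hQe : ∀ γ δ : Arc K σ, (∀ i ∉ Set.range e, γ i = δ i) → Q γ → Q δ)
    (k : ℕ) (hQk : ∀ γ, Q γ → OE k fun j => aeval γ (f j)) (s r : ℕ) :
    vo M v (fun γ => (Q γ ∧ ∀ j, Vn s (γ (e j))) ∧
        Vn (k + s + r) (∑ j, γ (e j) * aeval γ (f j))) =
      v ^ r * vo M v (fun γ => Q γ ∧ ∀ j, Vn s (γ (e j))) := by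
  classical
  set N := max q (k + s + r) with hN
  have hN1 : k + s + r ≤ N := le_max_right _ _
  have hB : Cyl (fun γ : Arc K σ => Q γ ∧ ∀ j, Vn s (γ (e j))) N :=
    (hQ.mono (le_max_left _ _)).and (Cyl.all fun j => Cyl.vnX (e j) (by omega))
  have hF : Cyl (fun γ : Arc K σ => Vn (k + s + r) (∑ j, γ (e j) * aeval γ (f j))) N := by
    refine (Cyl.vn (∑ j, X (e j) * f j) (show k + s + r ≤ N + 1 by omega)).congr fun γ => ?_
    simp only [map_sum, map_mul, aeval_X]
  rw [vo_eq M hv (hB.and hF), vo_eq M hv hB]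
  unfold vq
  set S : Set (Pt K (σ × Fin (N + 1))) := {z | Q (ar z) ∧ ∀ j, Vn s (ar z (e j))} with hS
  have cS : Constr S := hB.con
  set C : Finset (σ × Fin (N + 1)) :=
    Finset.univ.filter fun x => x.1 ∈ Set.range e ∧ s ≤ (x.2 : ℕ) with hC
  set D : Fin r → σ × Fin (N + 1) → Pt K (σ × Fin (N + 1)) → AlgebraicClosure K := fun p x z =>
    if (x.2 : ℕ) ≤ k + s + p then PowerSeries.coeff (k + s + p - x.2)
      (aeval (ar z) (Function.extend e f 0 x.1)) else 0 with hD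
  have hz0 : ∀ z ∈ S, ∀ (j : J) (n : Fin (N + 1)), (n : ℕ) < s → z (e j, n) = 0 := by
    intro z hz j n hn
    have h1 := hz.2 j n hn
    rwa [coeff_ar, dif_pos n.2] at h1
  have hco : ∀ z ∈ S, ∀ p : Fin r, PowerSeries.coeff (k + s + p)
      (∑ j, ar z (e j) * aeval (ar z) (f j)) = ∑ x ∈ C, D p x z * z x := by
    intro z hz p
    have h1 : ∑ x ∈ C, D p x z * z x =
        ∑ x ∈ (Finset.univ : Finset (J × Fin (N + 1))).image (fun y => (e y.1, y.2)),
          D p x z * z x := by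
      refine Finset.sum_subset ?_ ?_
      · rintro ⟨i, n⟩ hx
        obtain ⟨⟨j, hj⟩, -⟩ := (Finset.mem_filter.1 hx).2
        exact Finset.mem_image.2 ⟨(j, n), Finset.mem_univ _, by simp only at hj ⊢; rw [hj]⟩
      · rintro ⟨i, n⟩ hx hx'
        obtain ⟨⟨j, n'⟩, -, h2⟩ := Finset.mem_image.1 hx
        obtain ⟨rfl, rfl⟩ := Prod.mk.inj h2
        have h3 : (n' : ℕ) < s := by
          by_contra hc
          push Not at hc
          exact hx' (Finset.mem_filter.2 ⟨Finset.mem_univ _, ⟨j, rfl⟩, hc⟩)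
        rw [hz0 z hz j n' h3, mul_zero]
    rw [h1, Finset.sum_image (by
      rintro ⟨j, n⟩ _ ⟨j', n'⟩ _ h
      exact Prod.ext (he (Prod.mk.inj h).1) (Prod.mk.inj h).2), Fintype.sum_prod_type, map_sum]
    refine Finset.sum_congr rfl fun j _ => ?_
    rw [coeff_ar_mul]
    refine Finset.sum_congr rfl fun n _ => ?_
    simp only [hD]
    rw [he.extend_apply, mul_comm]
  have hVn : ∀ z ∈ S, Vn (k + s) (∑ j, ar z (e j) * aeval (ar z) (f j)) := by
    intro z hz
    rw [vn_iff]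
    refine Finset.dvd_sum fun j _ => ?_
    rw [add_comm k s, pow_add]
    exact mul_dvd_mul (vn_iff.1 (hz.2 j)) (vn_iff.1 ((hQk _ hz.1).1 j))
  have key := sLin' M C r S D (fun _ _ => 0) cS ?_ ?_ ?_ ?_
  · have h1 : {z : Pt K (σ × Fin (N + 1)) | (Q (ar z) ∧ ∀ j, Vn s (ar z (e j))) ∧
        Vn (k + s + r) (∑ j, ar z (e j) * aeval (ar z) (f j))} =
        S ∩ {z | ∀ p, ∑ x ∈ C, D p x z * z x + 0 = 0} := by
      ext z
      constructor
      · rintro ⟨hz, h2⟩
        refine ⟨hz, fun p => ?_⟩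
        rw [add_zero, ← hco z hz p]
        exact h2 _ (by omega)
      · rintro ⟨hz, h2⟩
        refine ⟨hz, fun i hi => ?_⟩
        by_cases h3 : i < k + s
        · exact hVn z hz i h3
        · have h4 := h2 ⟨i - (k + s), by omega⟩
          rw [add_zero, ← hco z hz _] at h4
          simp only at h4
          rwa [show k + s + (i - (k + s)) = i by omega] at h4
    rw [h1, ← key]
    have h3 : M.L ^ r * v ^ r = 1 := by rw [← mul_pow, hv, one_pow]
    set A := M.χ (σ × Fin (N + 1)) (S ∩ {z | ∀ p, ∑ x ∈ C, D p x z * z x + 0 = 0})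
    linear_combination (-(A * v ^ (Fintype.card σ * (N + 1)))) * h3
  · intro p x
    simp only [hD]
    split_ifs
    · exact pf_coeffK (fun z : Pt K (σ × Fin (N + 1)) => z) (fun i => IsPF.coord _) _ _
    · exact IsPF.zero
  · intro p
    exact IsPF.zero
  · intro z w hzw
    have hoff : ∀ i ∉ Set.range e, ar z i = ar w i := by
      intro i hi
      ext n
      rw [coeff_ar, coeff_ar]
      split_ifs with h
      · exact (hzw _ fun hm => hi (Finset.mem_filter.1 hm).2.1).symm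
      · rfl
    refine ⟨fun hz => ⟨hQe _ _ hoff hz.1, fun j n hn => ?_⟩, fun p x => ?_, fun p => rfl⟩
    · rw [coeff_ar, dif_pos (by omega), hzw _ fun hm => by
        have := (Finset.mem_filter.1 hm).2.2
        simp only at this
        omega]
      exact hz0 z hz j ⟨n, by omega⟩ hn
    · simp only [hD]
      have h1 : aeval (ar w) (Function.extend e f 0 x.1) = aeval (ar z) (Function.extend e f 0 x.1) := by
        by_cases hx : ∃ j, e j = x.1
        · obtain ⟨j, hj⟩ := hx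
          rw [← hj, he.extend_apply]
          exact (aeval_off (f j) e (fun i => hf i j) _ _ hoff).symm
        · rw [Function.extend_apply' _ _ _ hx, Pi.zero_apply, map_zero, map_zero]
      rw [h1]
  · intro z hz l hl
    obtain ⟨h2, j, hj⟩ := hQk _ hz.1
    by_contra hne
    push Not at hne
    obtain ⟨p0, hp0⟩ := hne
    obtain ⟨p, hp, hmax⟩ := (Finset.univ.filter fun p => l p ≠ 0).exists_maximal
      ⟨p0, by simp [hp0]⟩
    have hp' := (Finset.mem_filter.1 hp).2
    have hpN : s + (p : ℕ) < N + 1 := by have := p.2; omega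
    have h4 := hl (e j, ⟨s + p, hpN⟩) (Finset.mem_filter.2
      ⟨Finset.mem_univ _, ⟨j, rfl⟩, Nat.le_add_right _ _⟩)
    rw [Finset.sum_eq_single p] at h4
    · simp only [hD] at h4
      rw [he.extend_apply, if_pos (by omega), show k + s + (p : ℕ) - (s + p) = k by omega] at h4
      exact (mul_ne_zero hp' hj) h4
    · intro p' _ hpp
      simp only [hD]
      rw [he.extend_apply]
      by_cases hlt : (p : ℕ) ≤ p'
      · have h5 : l p' = 0 := by
          by_contra h6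
          have h7 := hmax (Finset.mem_filter.2 ⟨Finset.mem_univ p', h6⟩) (Fin.le_def.2 hlt)
          exact hpp (le_antisymm h7 (Fin.le_def.2 hlt))
        rw [h5, zero_mul]
      · by_cases h8 : s + (p : ℕ) ≤ k + s + p'
        · rw [if_pos h8, h2 j _ (by omega), mul_zero]
        · rw [if_neg h8, mul_zero]
    · intro h
      exact absurd (Finset.mem_univ _) h

theorem vo_key (e : J → σ) (he : Function.Injective e) (f : J → MvPolynomial σ K)
    (hf : ∀ i j, e i ∉ (f j).vars) {Q : Arc K σ → Prop} {q : ℕ} (hQ : Cyl Q q)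
    (hQe : ∀ γ δ : Arc K σ, (∀ i ∉ Set.range e, γ i = δ i) → Q γ → Q δ)
    (k : ℕ) (hQk : ∀ γ, Q γ → OE k fun j => aeval γ (f j)) (s m : ℕ) :
    vo M v (fun γ => (Q γ ∧ ∀ j, Vn s (γ (e j))) ∧
        OE (k + m) fun _ : Unit => ∑ j, γ (e j) * aeval γ (f j)) =
      pS v s m * vo M v (fun γ => Q γ ∧ ∀ j, Vn s (γ (e j))) := by
  unfold pS
  split_ifs with hm
  · rw [zero_mul]
    refine vo_false M hv ?_
    rintro γ ⟨⟨h1, h2⟩, h3⟩
    have h4 : Vn (k + s) (∑ j, γ (e j) * aeval γ (f j)) := by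
      rw [vn_iff]
      refine Finset.dvd_sum fun j _ => ?_
      rw [add_comm k s, pow_add]
      exact mul_dvd_mul (vn_iff.1 (h2 j)) (vn_iff.1 ((hQk _ h1).1 j))
    have := oe_vn h3 fun _ => h4
    omega
  · obtain ⟨r, rfl⟩ := Nat.exists_eq_add_of_le (not_lt.1 hm)
    rw [Nat.add_sub_cancel_left]
    have h1 := chi_key M hv e he f hf hQ hQe k hQk s r
    have h2 := chi_key M hv e he f hf hQ hQe k hQk s (r + 1)
    set N := max q (k + s + r + 1) with hN
    have hN1 : k + s + r + 1 ≤ N := le_max_right _ _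
    have hB : Cyl (fun γ : Arc K σ => Q γ ∧ ∀ j, Vn s (γ (e j))) N :=
      (hQ.mono (le_max_left _ _)).and (Cyl.all fun j => Cyl.vnX (e j) (by omega))
    have hF : ∀ c ≤ k + s + r + 1,
        Cyl (fun γ : Arc K σ => Vn c (∑ j, γ (e j) * aeval γ (f j))) N := by
      intro c hc
      refine (Cyl.vn (∑ j, X (e j) * f j) (show c ≤ N + 1 by omega)).congr fun γ => ?_
      simp only [map_sum, map_mul, aeval_X]
    have h3 := vo_split M hv (hB.and (hF (k + s + r) (by omega))) (hF (k + s + r + 1) le_rfl)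
    have h4 : vo M v (fun γ => ((Q γ ∧ ∀ j, Vn s (γ (e j))) ∧
        Vn (k + s + r) (∑ j, γ (e j) * aeval γ (f j))) ∧
          Vn (k + s + r + 1) (∑ j, γ (e j) * aeval γ (f j))) =
        vo M v (fun γ => (Q γ ∧ ∀ j, Vn s (γ (e j))) ∧
          Vn (k + s + (r + 1)) (∑ j, γ (e j) * aeval γ (f j))) := by
      refine vo_congr M fun γ => ⟨fun h => ⟨h.1.1, h.2⟩, fun h => ⟨⟨h.1, ?_⟩, h.2⟩⟩
      exact vn_mono h.2 (by omega)
    have h5 : vo M v (fun γ => (Q γ ∧ ∀ j, Vn s (γ (e j))) ∧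
        OE (k + (s + r)) fun _ : Unit => ∑ j, γ (e j) * aeval γ (f j)) =
        vo M v (fun γ => ((Q γ ∧ ∀ j, Vn s (γ (e j))) ∧
          Vn (k + s + r) (∑ j, γ (e j) * aeval γ (f j))) ∧
            ¬ Vn (k + s + r + 1) (∑ j, γ (e j) * aeval γ (f j))) := by
      refine vo_congr M fun γ => ?_
      rw [oe_iff, show k + (s + r) = k + s + r by ring]
      simp only [forall_const]
      tauto
    rw [h5]
    rw [h4, h1, h2] at h3
    linear_combination (-1 : R) * h3

omit [Fintype J] in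
theorem ZW_vo [Finite J] (f : J → MvPolynomial σ K) {W : Set (Pt K σ)} (hW : Constr W) (N : ℕ) :
    PowerSeries.coeff N (ZW M v f W) =
      vo M v fun γ => (fun i => PowerSeries.coeff 0 (γ i)) ∈ W ∧ OE N fun j => aeval γ (f j) := by
  simp only [ZW, PowerSeries.coeff_mk]
  rw [vol_eq_vo M hv f hW, vol_eq_vo M hv f hW]
  have h1 : Cyl (fun γ : Arc K σ => (fun i => PowerSeries.coeff 0 (γ i)) ∈ W) N := by
    refine (Cyl.of_constr (S := {z | (fun i => z (i, 0)) ∈ W})
      (hW.preimage (fun (z : Pt K (σ × Fin (N + 1))) (i : σ) => z (i, 0))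
        fun i => IsPF.coord _)).congr fun γ => ?_
    exact Iff.rfl
  have h2 : ∀ c ≤ N + 1, Cyl (fun γ : Arc K σ => ∀ j, Vn c (aeval γ (f j))) N := fun c hc =>
    Cyl.all fun j => Cyl.vn (f j) hc
  rw [vo_split M hv (h1.and (h2 N (by omega))) (h2 (N + 1) le_rfl)]
  have h4 : vo M v (fun γ : Arc K σ => ((fun i => PowerSeries.coeff 0 (γ i)) ∈ W ∧
      ∀ j, Vn N (aeval γ (f j))) ∧ ∀ j, Vn (N + 1) (aeval γ (f j))) =
      vo M v (fun γ : Arc K σ => (fun i => PowerSeries.coeff 0 (γ i)) ∈ W ∧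
        ∀ j, Vn (N + 1) (aeval γ (f j))) := by
    refine vo_congr M fun γ => ⟨fun h => ⟨h.1.1, h.2⟩, fun h => ⟨⟨h.1, fun j => ?_⟩, h.2⟩⟩
    exact vn_mono (h.2 j) (by omega)
  rw [h4, add_sub_cancel_left]
  refine vo_congr M fun γ => ?_
  rw [oe_iff]
  tauto

omit hv [Fintype σ] [Fintype J] in
theorem cyl_W {W : Set (Pt K σ)} (hW : Constr W) (N : ℕ) :
    Cyl (fun γ : Arc K σ => (fun i => PowerSeries.coeff 0 (γ i)) ∈ W) N := by
  refine (Cyl.of_constr (S := {z | (fun i => z (i, 0)) ∈ W})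
    (hW.preimage (fun (z : Pt K (σ × Fin (N + 1))) (i : σ) => z (i, 0))
      fun i => IsPF.coord _)).congr fun γ => ?_
  exact Iff.rfl

omit hv [Fintype σ] [Fintype J] in
theorem cyl_oe [Finite J] (f : J → MvPolynomial σ K) {k N : ℕ} (h : k ≤ N) :
    Cyl (fun γ : Arc K σ => OE k fun j => aeval γ (f j)) N := by
  refine ((Cyl.all fun j => Cyl.vn (f j) (show k ≤ N + 1 by omega)).and
    (Cyl.all fun j => Cyl.vn (f j) (show k + 1 ≤ N + 1 by omega)).not).congr fun γ => ?_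
  rw [oe_iff]

theorem core {κ : Type} [Finite κ] (e : J → σ) (he : Function.Injective e)
    (f : J → MvPolynomial σ K) (g : κ → MvPolynomial σ K) (hf : ∀ i j, e i ∉ (f j).vars)
    (hg : ∀ i k, e i ∉ (g k).vars) (a : ℕ) (ha : 1 ≤ a) (s : ℕ) {W W' : Set (Pt K σ)}
    (hW : Constr W) (hW' : Constr W')
    (hWe : ∀ x y : Pt K σ, (∀ i ∉ Set.range e, x i = y i) → x ∈ W' → y ∈ W')
    (hWW : ∀ γ : Arc K σ, (fun i => PowerSeries.coeff 0 (γ i)) ∈ W ↔
      (fun i => PowerSeries.coeff 0 (γ i)) ∈ W' ∧ ∀ j, Vn s (γ (e j))) :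
    ZW M v (fun k => (∑ j, X (e j) * f j) ^ a * g k) W =
      PowerSeries.C (1 - v) * (PowerSeries.X ^ (a * s) * gA v a) *
        ZW M v (fun q : (Fin a → J) × κ => (∏ i, f (q.1 i)) * g q.2) W := by
  classical
  ext N
  rw [coeff_conv a ha (pS v s) _ _ (coeff_gA v a s ha) N, ZW_vo M hv _ hW]
  -- the left hand side
  set T := ((Finset.range (N + 1) ×ˢ Finset.range (N + 1)).filter
        fun x : ℕ × ℕ => a * (x.1 + x.2) ≤ N) with hT
  obtain ⟨L, hL1, hL2⟩ : ∃ L, N ≤ L ∧ s ≤ L := ⟨max N s, le_max_left _ _, le_max_right _ _⟩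
  obtain ⟨Q, hQ⟩ : ∃ Q : ℕ → ℕ → Arc K σ → Prop, ∀ k l γ, Q k l γ ↔
      ((fun i => PowerSeries.coeff 0 (γ i)) ∈ W' ∧
        (OE k fun j => aeval γ (f j)) ∧ OE l fun j => aeval γ (g j)) := ⟨_, fun _ _ _ => Iff.rfl⟩
  have cQ : ∀ k ≤ N, ∀ l ≤ N, Cyl (Q k l) N := fun k hk l hl =>
    ((cyl_W hW' N).and ((cyl_oe f hk).and (cyl_oe g hl))).congr fun γ => (hQ k l γ).symm
  have iQ : ∀ k l, ∀ γ δ : Arc K σ, (∀ i ∉ Set.range e, γ i = δ i) → Q k l γ → Q k l δ := by
    intro k l γ δ h hh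
    obtain ⟨h1, h2, h3⟩ := (hQ k l γ).1 hh
    refine (hQ k l δ).2 ⟨hWe _ _ (fun i hi => by rw [h i hi]) h1, ?_, ?_⟩
    · have h4 : (fun j => aeval δ (f j)) = fun j => aeval γ (f j) := funext fun j =>
        (aeval_off (f j) e (fun i => hf i j) γ δ h).symm
      rw [h4]
      exact h2
    · have h4 : (fun j => aeval δ (g j)) = fun j => aeval γ (g j) := by
        funext j
        have h5 : ∀ i, e i ∉ (g j).vars := fun i => hg i j
        exact (aeval_off (g j) e h5 γ δ h).symm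
      rw [h4]
      exact h3
  have cB : ∀ k ≤ N, ∀ l ≤ N, Cyl (fun γ => Q k l γ ∧ ∀ j, Vn s (γ (e j))) L := by
    intro k hk l hl
    exact ((cQ k hk l hl).mono hL1).and (Cyl.all fun j => Cyl.vnX (e j) (by omega))
  have cH : ∀ h ≤ N, Cyl (fun γ : Arc K σ => OE h fun _ : Unit =>
      ∑ j, γ (e j) * aeval γ (f j)) L := by
    intro h hh
    refine (cyl_oe (fun _ : Unit => ∑ j, X (e j) * f j) (hh.trans hL1)).congr
      fun γ => ?_
    simp only [map_sum, map_mul, aeval_X]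
  have h1 : (vo M v fun γ => (fun i => PowerSeries.coeff 0 (γ i)) ∈ W ∧
      OE N fun k => aeval γ ((∑ j, X (e j) * f j) ^ a * g k)) =
      vo M v fun γ => ∃ x ∈ T, (Q x.1 (N - a * (x.1 + x.2)) γ ∧ ∀ j, Vn s (γ (e j))) ∧
        OE (x.1 + x.2) fun _ : Unit => ∑ j, γ (e j) * aeval γ (f j) := by
    refine vo_congr M fun γ => ?_
    have h2 : (fun k => aeval γ ((∑ j, X (e j) * f j) ^ a * g k)) =
        fun k => (∑ j, γ (e j) * aeval γ (f j)) ^ a * aeval γ (g k) := by
      funext k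
      simp only [map_sum, map_mul, aeval_X, map_pow]
    rw [h2, oe_left ha, hWW γ]
    constructor
    · rintro ⟨⟨h3, h4⟩, x, hx, h5, h6, h7⟩
      exact ⟨x, hx, ⟨(hQ _ _ _).2 ⟨h3, h5, h6⟩, h4⟩, h7⟩
    · rintro ⟨x, hx, ⟨hq, h4⟩, h7⟩
      obtain ⟨h3, h5, h6⟩ := (hQ _ _ _).1 hq
      exact ⟨⟨h3, h4⟩, x, hx, h5, h6, h7⟩
  have hTm : ∀ x ∈ T, x.1 ≤ N ∧ x.2 ≤ N ∧ x.1 + x.2 ≤ N ∧ a * (x.1 + x.2) ≤ N := by
    intro x hx
    simp only [hT, Finset.mem_filter, Finset.mem_product, Finset.mem_range] at hx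
    have : x.1 + x.2 ≤ a * (x.1 + x.2) := Nat.le_mul_of_pos_left _ ha
    omega
  rw [h1, vo_sum M hv T (q := L) (fun x hx => (cB _ (hTm x hx).1 _ (by omega)).and
    (cH _ (hTm x hx).2.2.1)) ?_]
  swap
  · rintro ⟨k, m⟩ hx ⟨k', m'⟩ hx' hne γ ⟨⟨hq, -⟩, h3⟩ ⟨⟨hq', -⟩, h5⟩
    obtain ⟨-, h2, -⟩ := (hQ _ _ _).1 hq
    obtain ⟨-, h4, -⟩ := (hQ _ _ _).1 hq'
    simp only at h2 h3 h4 h5
    have h6 := oe_uniq h2 h4
    have h7 := oe_uniq h3 h5
    apply hne
    rw [Prod.mk.injEq]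
    omega
  have h8 : ∀ x ∈ T, vo M v (fun γ => (Q x.1 (N - a * (x.1 + x.2)) γ ∧ ∀ j, Vn s (γ (e j))) ∧
        OE (x.1 + x.2) fun _ : Unit => ∑ j, γ (e j) * aeval γ (f j)) =
      pS v s x.2 * vo M v (fun γ => Q x.1 (N - a * (x.1 + x.2)) γ ∧ ∀ j, Vn s (γ (e j))) := by
    intro x hx
    exact vo_key M hv e he f hf (cQ _ (hTm x hx).1 _ (by omega)) (iQ _ _) x.1
      (fun γ h => ((hQ _ _ _).1 h).2.1) s x.2
  rw [Finset.sum_congr rfl h8]
  have h9 : ∀ m ∈ (Finset.range (N + 1)).filter (fun m => a * m ≤ N),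
      PowerSeries.coeff (N - a * m)
        (ZW M v (fun q : (Fin a → J) × κ => (∏ i, f (q.1 i)) * g q.2) W) =
      ∑ k ∈ (Finset.range (N + 1)).filter (fun k => a * k ≤ N - a * m),
        vo M v (fun γ => Q k (N - a * (k + m)) γ ∧ ∀ j, Vn s (γ (e j))) := by
    intro m hm
    rw [ZW_vo M hv _ hW]
    have h2 : (vo M v fun γ => (fun i => PowerSeries.coeff 0 (γ i)) ∈ W ∧
        OE (N - a * m) fun q : (Fin a → J) × κ => aeval γ ((∏ i, f (q.1 i)) * g q.2)) =
        vo M v fun γ => ∃ k ∈ (Finset.range (N + 1)).filter (fun k => a * k ≤ N - a * m),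
          Q k (N - a * (k + m)) γ ∧ ∀ j, Vn s (γ (e j)) := by
      refine vo_congr M fun γ => ?_
      have h3 : (fun q : (Fin a → J) × κ => aeval γ ((∏ i, f (q.1 i)) * g q.2)) =
          fun q => (∏ i, aeval γ (f (q.1 i))) * aeval γ (g q.2) := by
        funext q
        rw [map_mul, map_prod]
      rw [h3, oe_right ha (Nat.sub_le N (a * m)) (fun j => aeval γ (f j))
        (fun k => aeval γ (g k)), hWW γ]
      constructor
      · rintro ⟨⟨h4, h5⟩, k, hk, h6, h7⟩
        refine ⟨k, hk, (hQ _ _ _).2 ⟨h4, h6, ?_⟩, h5⟩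
        rwa [show N - a * (k + m) = N - a * m - a * k by rw [mul_add]; omega]
      · rintro ⟨k, hk, hq, h5⟩
        obtain ⟨h4, h6, h7⟩ := (hQ _ _ _).1 hq
        refine ⟨⟨h4, h5⟩, k, hk, h6, ?_⟩
        rwa [show N - a * (k + m) = N - a * m - a * k by rw [mul_add]; omega] at h7
    rw [h2, vo_sum M hv _ (q := L) (fun k hk => cB k (by
      have := (Finset.mem_range.1 (Finset.mem_filter.1 hk).1); omega) _ (by omega))]
    rintro k - k' - hne γ ⟨hq, -⟩ ⟨hq', -⟩
    exact hne (oe_uniq ((hQ _ _ _).1 hq).2.1 ((hQ _ _ _).1 hq').2.1)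
  have h10 : ∑ m ∈ (Finset.range (N + 1)).filter (fun m => a * m ≤ N),
      pS v s m * PowerSeries.coeff (N - a * m)
        (ZW M v (fun q : (Fin a → J) × κ => (∏ i, f (q.1 i)) * g q.2) W) =
      ∑ m ∈ (Finset.range (N + 1)).filter (fun m => a * m ≤ N),
        ∑ k ∈ (Finset.range (N + 1)).filter (fun k => a * k ≤ N - a * m),
          pS v s m * vo M v (fun γ => Q k (N - a * (k + m)) γ ∧ ∀ j, Vn s (γ (e j))) :=
    Finset.sum_congr rfl fun m hm => by rw [h9 m hm, Finset.mul_sum]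
  rw [h10, Finset.sum_sigma']
  refine Finset.sum_bij' (fun x _ => ⟨x.2, x.1⟩) (fun y _ => (y.2, y.1)) ?_ ?_ ?_ ?_ ?_
  · rintro ⟨k, m⟩ hx
    simp only [hT, Finset.mem_filter, Finset.mem_product, Finset.mem_range, mul_add,
      Finset.mem_sigma] at hx ⊢
    omega
  · rintro ⟨m, k⟩ hx
    simp only [hT, Finset.mem_filter, Finset.mem_product, Finset.mem_range, mul_add,
      Finset.mem_sigma] at hx ⊢
    omega
  · rintro ⟨k, m⟩ _
    rfl
  · rintro ⟨m, k⟩ _
    rfl
  · rintro ⟨k, m⟩ _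
    rfl

end key

theorem qt_block : StBlock := by
  intro R _ M v hv σ J K _ _ _ e he f g hf hg a ha
  classical
  constructor
  · have h1 := core M hv e he f g hf hg a ha 0 (W := Set.univ) (W' := Set.univ) Constr.univ
      Constr.univ (fun _ _ _ _ => trivial) (fun γ => ⟨fun _ => ⟨trivial, fun j i hi =>
        absurd hi (Nat.not_lt_zero i)⟩, fun _ => trivial⟩)
    rw [mul_zero, pow_zero, one_mul] at h1
    exact h1
  · have hW' : Constr {x : Pt ℂ σ | ∀ i, i ∉ Set.range e → x i = 0} := by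
      refine Constr.all fun i => ?_
      by_cases hi : i ∈ Set.range e
      · have h2 : {x : Pt ℂ σ | i ∉ Set.range e → x i = 0} = Set.univ := by
          ext x
          simp [hi]
        rw [h2]
        exact Constr.univ
      · have h2 : {x : Pt ℂ σ | i ∉ Set.range e → x i = 0} = {x | x i = 0} := by
          ext x
          simp only [Set.mem_ofPred_eq]
          exact ⟨fun h => h hi, fun h _ => h⟩
        rw [h2]
        exact Constr.eqz (IsPF.coord _)
    have h1 := core M hv e he f g hf hg a ha 1 (W := {0})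
      (W' := {x : Pt ℂ σ | ∀ i, i ∉ Set.range e → x i = 0}) ?_ hW' ?_ ?_
    · rw [mul_one] at h1
      exact h1
    · have := constr_pt (K := ℂ) (0 : σ → ℂ)
      have h3 : (fun j => algebraMap ℂ (AlgebraicClosure ℂ) ((0 : σ → ℂ) j)) = 0 := by
        funext j
        exact map_zero _
      rwa [h3] at this
    · intro x y h h' i hi
      rw [← h i hi]
      exact h' i hi
    · intro γ
      rw [Set.mem_singleton_iff, funext_iff]
      constructor
      · intro h
        refine ⟨fun i _ => h i, fun j n hn => ?_⟩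
        rw [Nat.lt_one_iff] at hn
        rw [hn]
        exact h (e j)
      · rintro ⟨h2, h3⟩ i
        by_cases hi : i ∈ Set.range e
        · obtain ⟨j, rfl⟩ := hi
          exact h3 j 0 Nat.one_pos
        · exact h2 i hi

end Pool.Agent.Q299.QT
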